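import Mathlib

/-!
# Sets all of whose translates are null for the Cantor measure (MP_49e1f6_an)

We prove (outright, hence in ZFC) that there is a set `X` of reals of positive outer Lebesgue measure
such that every translate `X + t` is null for the Cantor measure.  So the statement that every
Cantor-translate-null set is Lebesgue null is refutable in ZFC.

Idea of the proof.
* Let `E` be the set of reals `2 * Σ c_n 3^(-n-1)`, `c_n ∈ {-1,0,1}`, such that for all large `N` at
  most three fifths of the digits `c_0, ..., c_(N-1)` are nonzero.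
* For each point `u` of the Cantor set, the strong law of large numbers gives that almost every point
  of the Cantor set (for the Cantor measure) lies in `u + E`: the digits of the difference are
  nonzero with probability one half.
* On the other hand `E` is small: there is a measurable map `z` from the Cantor space to the reals
  such that every translate of `E` contains only finitely many of the points `z s`
  (`exists_code`); this uses that a Lebesgue-typical number has two thirds of its balanced ternary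
  digits nonzero.  By Fubini, fewer than continuum many translates of `E` together with a Lebesgue
  null set never cover the line (`exists_avoid`).
* A transfinite recursion of length at most the continuum over all Borel null sets gives a non-null
  set `X` no nonzero difference of which is in `E`.  Each translate of `X` then meets the Cantor set
  in a set contained in a point plus a null set of the Cantor measure.
-/

open MeasureTheory Filter Topology
open scoped ENNReal

namespace Pool.Agent.Hhelper29.CantorNull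

/-- number of nonzero balanced ternary digits among the last `L` digits of the integer `u` -/
def wt : ℕ → ℤ → ℕ
  | 0, _ => 0
  | (L + 1), u => wt L ((u + 1) / 3) + (if u % 3 = 0 then 0 else 1)

lemma wt_succ (L : ℕ) (u : ℤ) :
    wt (L + 1) u = wt L ((u + 1) / 3) + (if u % 3 = 0 then 0 else 1) := rfl

lemma wt_lip (L : ℕ) : ∀ u : ℤ, wt L u ≤ wt L (u + 1) + 1 ∧ wt L (u + 1) ≤ wt L u + 1 := by
  induction L with
  | zero => intro u; simp [wt]
  | succ L ih =>
    intro u
    rw [wt_succ, wt_succ]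
    have h3 : u % 3 = 0 ∨ u % 3 = 1 ∨ u % 3 = 2 := by omega
    rcases h3 with h | h | h
    · have e1 : (u + 1 + 1) / 3 = (u + 1) / 3 := by omega
      have e2 : ¬ ((u + 1) % 3 = 0) := by omega
      rw [e1, if_pos h, if_neg e2]; omega
    · have e1 : (u + 1 + 1) / 3 = (u + 1) / 3 + 1 := by omega
      have e2 : ¬ ((u + 1) % 3 = 0) := by omega
      have e3 : ¬ (u % 3 = 0) := by omega
      rw [e1, if_neg e3, if_neg e2]
      have := ih ((u + 1) / 3)
      omega
    · have e1 : (u + 1 + 1) / 3 = (u + 1) / 3 := by omega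
      have e2 : ((u + 1) % 3 = 0) := by omega
      have e3 : ¬ (u % 3 = 0) := by omega
      rw [e1, if_neg e3, if_pos e2]; omega

lemma wt_period (L : ℕ) : ∀ u k : ℤ, wt L (u + 3 ^ L * k) = wt L u := by
  induction L with
  | zero => intro u k; simp [wt]
  | succ L ih =>
    intro u k
    rw [wt_succ, wt_succ]
    have e1 : (u + 3 ^ (L + 1) * k + 1) / 3 = (u + 1) / 3 + 3 ^ L * k := by
      have : u + 3 ^ (L + 1) * k + 1 = (u + 1) + 3 * (3 ^ L * k) := by ring
      rw [this]; generalize 3 ^ L * k = m; omega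
    have e2 : (u + 3 ^ (L + 1) * k) % 3 = u % 3 := by
      have : u + 3 ^ (L + 1) * k = u + 3 * (3 ^ L * k) := by ring
      rw [this]; generalize 3 ^ L * k = m; omega
    rw [e1, e2, ih]

lemma sum_range_three_mul (f : ℕ → ℕ) (n : ℕ) :
    ∑ i ∈ Finset.range (3 * n), f i
      = ∑ i ∈ Finset.range n, (f (3 * i) + f (3 * i + 1) + f (3 * i + 2)) := by
  induction n with
  | zero => simp
  | succ n ih =>
    rw [Finset.sum_range_succ, ← ih, show 3 * (n + 1) = 3 * n + 1 + 1 + 1 by ring,
      Finset.sum_range_succ, Finset.sum_range_succ, Finset.sum_range_succ]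
    ring

lemma wt_sum (L : ℕ) : ∀ a : ℤ,
    3 * ∑ v ∈ Finset.range (3 ^ L), wt L (a + v) = 2 * L * 3 ^ L := by
  induction L with
  | zero => intro a; simp [wt]
  | succ L ih =>
    intro a
    have key : ∑ v ∈ Finset.range (3 ^ (L + 1)), wt (L + 1) (a + v)
        = ∑ v ∈ Finset.range (3 ^ L), wt L ((a + 1) / 3 + v)
        + ∑ v ∈ Finset.range (3 ^ L), wt L ((a + 2) / 3 + v)
        + ∑ v ∈ Finset.range (3 ^ L), wt L ((a + 3) / 3 + v) + 2 * 3 ^ L := by
      rw [show 3 ^ (L + 1) = 3 * 3 ^ L by ring, sum_range_three_mul]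
      rw [show 2 * 3 ^ L = ∑ v ∈ Finset.range (3 ^ L), 2 by simp [mul_comm]]
      rw [← Finset.sum_add_distrib, ← Finset.sum_add_distrib, ← Finset.sum_add_distrib]
      refine Finset.sum_congr rfl fun v _ => ?_
      rw [wt_succ, wt_succ, wt_succ]
      push_cast
      have e1 : (a + 3 * (v:ℤ) + 1) / 3 = (a + 1) / 3 + v := by omega
      have e2 : (a + (3 * (v:ℤ) + 1) + 1) / 3 = (a + 2) / 3 + v := by omega
      have e3 : (a + (3 * (v:ℤ) + 2) + 1) / 3 = (a + 3) / 3 + v := by omega
      rw [e1, e2, e3]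
      have h3 : a % 3 = 0 ∨ a % 3 = 1 ∨ a % 3 = 2 := by omega
      rcases h3 with h | h | h
      · rw [if_pos (by omega), if_neg (by omega), if_neg (by omega)]; ring
      · rw [if_neg (by omega), if_neg (by omega), if_pos (by omega)]; ring
      · rw [if_neg (by omega), if_pos (by omega), if_neg (by omega)]; ring
    rw [key]
    have h1 := ih ((a + 1) / 3)
    have h2 := ih ((a + 2) / 3)
    have h3 := ih ((a + 3) / 3)
    rw [show (3:ℕ) ^ (L + 1) = 3 * 3 ^ L by ring]
    nlinarith

/-- `pre B a N` is the integer with base `B` digits `a 0, ..., a (N-1)`. -/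
def pre (B : ℤ) (a : ℕ → ℤ) : ℕ → ℤ
  | 0 => 0
  | (n + 1) => B * pre B a n + a n

lemma summable_digits {B : ℝ} (hB : 2 ≤ B) {a : ℕ → ℤ} {M : ℝ} (ha : ∀ n, |(a n : ℝ)| ≤ M) :
    Summable (fun n => (a n : ℝ) / B ^ (n + 1)) := by
  have hB0 : 0 < B := by linarith
  refine Summable.of_norm_bounded (g := fun n => M / B * (1 / B) ^ n) ?_ ?_
  · exact (summable_geometric_of_lt_one (by positivity)
      (by rw [div_lt_one hB0]; linarith)).mul_left _
  · intro n
    rw [Real.norm_eq_abs, abs_div, abs_of_pos (by positivity : 0 < B ^ (n + 1))]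
    rw [div_le_iff₀ (by positivity)]
    have : M / B * (1 / B) ^ n * B ^ (n + 1) = M := by
      rw [one_div, inv_pow]; field_simp; ring
    rw [this]; exact ha n

lemma tsum_geom {B : ℝ} (hB : 2 ≤ B) : ∑' n : ℕ, (1 : ℝ) / B ^ (n + 1) = 1 / (B - 1) := by
  have hB0 : 0 < B := by linarith
  have h : ∀ n : ℕ, (1 : ℝ) / B ^ (n + 1) = (1 / B) * (1 / B) ^ n := by
    intro n; rw [pow_succ, one_div_pow]; field_simp
  simp_rw [h]
  rw [tsum_mul_left, tsum_geometric_of_lt_one (by positivity)
      (by rw [div_lt_one hB0]; linarith)]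
  have : B - 1 ≠ 0 := by linarith
  field_simp

lemma tsum_pre {B : ℤ} (hB : 2 ≤ B) {a : ℕ → ℤ} {M : ℝ} (ha : ∀ n, |(a n : ℝ)| ≤ M) (N : ℕ) :
    (∑' n, (a n : ℝ) / (B : ℝ) ^ (n + 1)) * (B : ℝ) ^ N
      = pre B a N + ∑' n, (a (n + N) : ℝ) / (B : ℝ) ^ (n + 1) := by
  have hB' : (2 : ℝ) ≤ B := by exact_mod_cast hB
  have hB0 : (0 : ℝ) < B := by linarith
  induction N with
  | zero => simp [pre]
  | succ N ih =>
    rw [pow_succ, ← mul_assoc, ih]
    have hs : Summable (fun n => (a (n + N) : ℝ) / (B : ℝ) ^ (n + 1)) :=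
      summable_digits hB' (a := fun n => a (n + N)) (M := M) (fun n => ha _)
    rw [hs.tsum_eq_zero_add]
    simp only [pre]
    push_cast
    have : ∑' n, (a (n + 1 + N) : ℝ) / (B : ℝ) ^ (n + 1 + 1)
        = (∑' n, (a (n + (N + 1)) : ℝ) / (B : ℝ) ^ (n + 1)) / B := by
      rw [← tsum_div_const]
      refine tsum_congr fun n => ?_
      rw [show n + 1 + N = n + (N + 1) by ring, pow_succ _ (n + 1), div_div]
    rw [this]
    simp
    field_simp
    ring

lemma tail_bounds {B : ℝ} (hB : 2 ≤ B) {a : ℕ → ℤ} {lo hi : ℝ} (hlo : ∀ n, lo ≤ (a n : ℝ))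
    (hhi : ∀ n, (a n : ℝ) ≤ hi) :
    lo / (B - 1) ≤ ∑' n, (a n : ℝ) / B ^ (n + 1) ∧ ∑' n, (a n : ℝ) / B ^ (n + 1) ≤ hi / (B - 1) := by
  have hB0 : 0 < B := by linarith
  have hs : Summable (fun n => (a n : ℝ) / B ^ (n + 1)) :=
    summable_digits hB (M := max |lo| |hi|) (fun n => by
      have h1 := hlo n; have h2 := hhi n
      rw [abs_le]
      constructor
      · have := neg_abs_le lo; have := le_max_left |lo| |hi|; linarith
      · have := le_abs_self hi; have := le_max_right |lo| |hi|; linarith)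
  have hone : Summable (fun n : ℕ => (1 : ℝ) / B ^ (n + 1)) := by
    have := summable_digits hB (a := fun _ => 1) (M := 1) (fun n => by simp)
    simpa using this
  constructor
  · have h1 : ∑' n : ℕ, lo * (1 / B ^ (n + 1)) ≤ ∑' n, (a n : ℝ) / B ^ (n + 1) := by
      refine (hone.mul_left lo).tsum_le_tsum (fun n => ?_) hs
      rw [mul_one_div]
      exact div_le_div_of_nonneg_right (hlo n) (by positivity)
    rw [tsum_mul_left, tsum_geom hB, mul_one_div] at h1
    exact h1
  · have h1 : ∑' n, (a n : ℝ) / B ^ (n + 1) ≤ ∑' n : ℕ, hi * (1 / B ^ (n + 1)) := by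
      refine hs.tsum_le_tsum (fun n => ?_) (hone.mul_left hi)
      rw [mul_one_div]
      exact div_le_div_of_nonneg_right (hhi n) (by positivity)
    rw [tsum_mul_left, tsum_geom hB, mul_one_div] at h1
    exact h1


/-- The exceptional set: reals `2 * Σ c_n 3^{-(n+1)}` with digits `c_n ∈ {-1,0,1}` such that
eventually at most three fifths of the first `N` digits are nonzero. -/
def E : Set ℝ :=
  {y | ∃ c : ℕ → ℤ, (∀ n, |c n| ≤ 1) ∧ y = 2 * ∑' n, (c n : ℝ) / (3 : ℝ) ^ (n + 1) ∧
    ∀ᶠ N : ℕ in atTop, 5 * (∑ n ∈ Finset.range N, if c n = 0 then 0 else 1) ≤ 3 * N}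

lemma E_neg {y : ℝ} (hy : y ∈ E) : -y ∈ E := by
  obtain ⟨c, h1, h2, h3⟩ := hy
  refine ⟨fun n => - c n, fun n => by simpa using h1 n, ?_, ?_⟩
  · rw [h2, ← mul_neg, ← tsum_neg]
    congr 1
    refine tsum_congr fun n => ?_
    push_cast; ring
  · simpa using h3

/-- digit weight of a block of digits is the number of nonzero digits -/
lemma wt_pre {c : ℕ → ℤ} (hc : ∀ n, |c n| ≤ 1) (L n : ℕ) :
    wt L (pre 3 c (n + L)) = ∑ j ∈ Finset.Ico n (n + L), if c j = 0 then 0 else 1 := by
  induction L with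
  | zero => simp [wt]
  | succ L ih =>
    rw [wt_succ, ← add_assoc, Finset.sum_Ico_succ_top (by omega)]
    have h := hc (n + L)
    rw [abs_le] at h
    have e1 : (pre 3 c (n + L + 1) + 1) / 3 = pre 3 c (n + L) := by
      simp only [pre]; omega
    have e2 : (pre 3 c (n + L + 1) % 3 = 0) ↔ c (n + L) = 0 := by
      simp only [pre]; omega
    rw [e1, ih]
    simp only [e2]

/-- Passing to base `3^L`. -/
lemma block_real {L : ℕ} {c : ℕ → ℤ} (hc : ∀ n, |c n| ≤ 1)
    {d : ℕ → ℤ} (hL : 1 ≤ L) (hd0 : ∀ n, 0 ≤ d n) (hd1 : ∀ n, d n ≤ 3 ^ L - 1) {x : ℝ}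
    (h : 2 * (∑' n, (d n : ℝ) / ((3 : ℝ) ^ L) ^ (n + 1)) - x
      = 2 * ∑' n, (c n : ℝ) / (3 : ℝ) ^ (n + 1)) (P : ℕ) :
    ∃ τ : ℤ, |τ| ≤ 1 ∧ pre 3 c (P * L) = pre (3 ^ L) d P - ⌊((3 : ℝ) ^ L) ^ P * x / 2⌋ - τ := by
  have hcr : ∀ n, |(c n : ℝ)| ≤ 1 := fun n => by exact_mod_cast hc n
  have h3L : (3 : ℤ) ≤ 3 ^ L := by
    calc (3 : ℤ) = 3 ^ 1 := by norm_num
      _ ≤ 3 ^ L := pow_le_pow_right₀ (by norm_num) hL
  have h3Lr : (3 : ℝ) ≤ 3 ^ L := by exact_mod_cast h3L
  have hdr : ∀ n, |(d n : ℝ)| ≤ 3 ^ L := fun n => by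
    rw [abs_le]
    have h0 := hd0 n; have h1 := hd1 n
    constructor
    · have : (0 : ℝ) ≤ d n := by exact_mod_cast h0
      linarith
    · have : (d n : ℝ) ≤ 3 ^ L - 1 := by exact_mod_cast h1
      linarith
  have hc1 := tsum_pre (B := 3) (by norm_num) hcr (P * L)
  have hd2 := tsum_pre (B := 3 ^ L) (by linarith) hdr P
  have tc := tail_bounds (B := 3) (by norm_num) (a := fun n => c (n + P * L)) (lo := -1) (hi := 1)
    (fun n => (abs_le.1 (hcr _)).1) (fun n => (abs_le.1 (hcr _)).2)
  have td := tail_bounds (B := 3 ^ L) (by linarith) (a := fun n => d (n + P)) (lo := 0)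
    (hi := 3 ^ L - 1) (fun n => by exact_mod_cast hd0 _) (fun n => by exact_mod_cast hd1 _)
  push_cast at hc1 hd2 tc td
  set X : ℝ := ((3 : ℝ) ^ L) ^ P * x / 2 with hX
  set tC := ∑' n, (c (n + P * L) : ℝ) / (3 : ℝ) ^ (n + 1) with htC
  set tD := ∑' n, (d (n + P) : ℝ) / ((3 : ℝ) ^ L) ^ (n + 1) with htD
  have hpow : (3 : ℝ) ^ (P * L) = ((3 : ℝ) ^ L) ^ P := by rw [← pow_mul]; ring_nf
  have key : (pre (3 ^ L) d P : ℝ) + tD - X = pre 3 c (P * L) + tC := by
    rw [← hc1, ← hd2, hX, hpow]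
    have : (∑' n, (d n : ℝ) / ((3 : ℝ) ^ L) ^ (n + 1)) - x / 2
      = ∑' n, (c n : ℝ) / (3 : ℝ) ^ (n + 1) := by linarith
    rw [← this]; ring
  have td2 : tD ≤ 1 := by
    have := td.2
    rwa [div_self (by linarith)] at this
  have td1 : 0 ≤ tD := by simpa using td.1
  refine ⟨pre (3 ^ L) d P - ⌊X⌋ - pre 3 c (P * L), ?_, by ring⟩
  have f1 := Int.floor_le X
  have f2 := Int.lt_floor_add_one X
  have tc1 := tc.1
  have tc2 := tc.2
  rw [abs_le]
  constructor
  · have : ((-2 : ℤ) : ℝ) < ((pre (3 ^ L) d P - ⌊X⌋ - pre 3 c (P * L) : ℤ) : ℝ) := by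
      push_cast; linarith
    have := Int.cast_lt.1 this
    omega
  · have : ((pre (3 ^ L) d P - ⌊X⌋ - pre 3 c (P * L) : ℤ) : ℝ) < ((2 : ℤ) : ℝ) := by
      push_cast; linarith
    have := Int.cast_lt.1 this
    omega

lemma wt_sub_tau (L : ℕ) (u τ : ℤ) (hτ : |τ| ≤ 1) : wt L u ≤ wt L (u - τ) + 1 := by
  rw [abs_le] at hτ
  have h : τ = -1 ∨ τ = 0 ∨ τ = 1 := by omega
  rcases h with rfl | rfl | rfl
  · have := (wt_lip L u).1; simpa using this
  · simp
  · have := (wt_lip L (u - 1)).2; simpa using this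

/-- Main counting estimate: if the digits `d i P` (base `3^L`) take all values `i < 3^L` on the block
`b^j ≤ P < b^(j+1)`, the sparse balanced expansions are impossible. -/
lemma block_count {L b j : ℕ} (hL : 1 ≤ L) (hb : 1 ≤ b) (hLb : 9 * L * b < 5 * (b - 1) * (2 * L - 3))
    (c : ℕ → ℕ → ℤ) (hc : ∀ i n, |c i n| ≤ 1)
    (d : ℕ → ℕ → ℤ) (hd0 : ∀ i n, 0 ≤ d i n) (hd1 : ∀ i n, d i n ≤ 3 ^ L - 1) (x : ℝ)
    (h : ∀ i < 3 ^ L, 2 * (∑' n, (d i n : ℝ) / ((3 : ℝ) ^ L) ^ (n + 1)) - x
      = 2 * ∑' n, (c i n : ℝ) / (3 : ℝ) ^ (n + 1))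
    (hd : ∀ i < 3 ^ L, ∀ P, b ^ j ≤ P → P < b ^ (j + 1) → d i P = i)
    (hsp : ∀ i < 3 ^ L, 5 * (∑ n ∈ Finset.range (L * b ^ (j + 1)), if c i n = 0 then 0 else 1)
      ≤ 3 * (L * b ^ (j + 1))) : False := by
  have hblock : ∀ P, b ^ j ≤ P → P < b ^ (j + 1) →
      2 * L * 3 ^ L ≤ 3 * (∑ i ∈ Finset.range (3 ^ L), wt L (pre 3 (c i) ((P + 1) * L)))
        + 3 * 3 ^ L := by
    intro P hP1 hP2
    set ξ := ⌊((3 : ℝ) ^ L) ^ (P + 1) * x / 2⌋ with hξ
    rw [← wt_sum L (-ξ)]
    have : ∑ v ∈ Finset.range (3 ^ L), wt L (-ξ + v)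
        ≤ (∑ i ∈ Finset.range (3 ^ L), wt L (pre 3 (c i) ((P + 1) * L))) + 3 ^ L := by
      rw [show (∑ i ∈ Finset.range (3 ^ L), wt L (pre 3 (c i) ((P + 1) * L))) + 3 ^ L
        = ∑ i ∈ Finset.range (3 ^ L), (wt L (pre 3 (c i) ((P + 1) * L)) + 1) by
          rw [Finset.sum_add_distrib]; simp]
      refine Finset.sum_le_sum fun i hi => ?_
      have hi' := Finset.mem_range.1 hi
      obtain ⟨τ, hτ, hpre⟩ := block_real (hc i) hL (hd0 i) (hd1 i) (h i hi') (P + 1)
      rw [hpre, ← hξ]
      simp only [pre]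
      rw [hd i hi' P hP1 hP2]
      have e : (3 : ℤ) ^ L * pre (3 ^ L) (d i) P + i - ξ - τ
          = ((-ξ + i) - τ) + 3 ^ L * pre (3 ^ L) (d i) P := by ring
      rw [e, wt_period]
      exact wt_sub_tau L _ τ hτ
    linarith
  have hcount : ∀ i, ∑ P ∈ Finset.Ico (b ^ j) (b ^ (j + 1)), wt L (pre 3 (c i) ((P + 1) * L))
      ≤ ∑ n ∈ Finset.range (L * b ^ (j + 1)), if c i n = 0 then 0 else 1 := by
    intro i
    have hw : ∀ P, wt L (pre 3 (c i) ((P + 1) * L))
        = ∑ n ∈ Finset.Ico (P * L) ((P + 1) * L), if c i n = 0 then 0 else 1 := by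
      intro P
      have := wt_pre (hc i) L (P * L)
      rw [show (P + 1) * L = P * L + L by ring]
      exact this
    simp_rw [hw]
    have hsum : ∀ M : ℕ, ∑ P ∈ Finset.range M,
        (∑ n ∈ Finset.Ico (P * L) ((P + 1) * L), if c i n = 0 then 0 else 1)
          = ∑ n ∈ Finset.range (M * L), if c i n = 0 then 0 else 1 := by
      intro M
      induction M with
      | zero => simp
      | succ M ih =>
        rw [Finset.sum_range_succ, ih, Finset.range_eq_Ico, Finset.range_eq_Ico,
          Finset.sum_Ico_consecutive _ (by omega) (Nat.mul_le_mul_right _ (by omega))]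
    calc _ ≤ ∑ P ∈ Finset.range (b ^ (j + 1)),
        (∑ n ∈ Finset.Ico (P * L) ((P + 1) * L), if c i n = 0 then 0 else 1) := by
          refine Finset.sum_le_sum_of_subset ?_
          intro P hP
          rw [Finset.mem_Ico] at hP
          exact Finset.mem_range.2 hP.2
      _ = _ := by rw [hsum, mul_comm]
  have hT1 : ∑ P ∈ Finset.Ico (b ^ j) (b ^ (j + 1)), 2 * L * 3 ^ L
      ≤ ∑ P ∈ Finset.Ico (b ^ j) (b ^ (j + 1)),
        (3 * (∑ i ∈ Finset.range (3 ^ L), wt L (pre 3 (c i) ((P + 1) * L))) + 3 * 3 ^ L) := by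
    refine Finset.sum_le_sum fun P hP => ?_
    rw [Finset.mem_Ico] at hP
    exact hblock P hP.1 hP.2
  have e1 : ∑ P ∈ Finset.Ico (b ^ j) (b ^ (j + 1)),
      3 * (∑ i ∈ Finset.range (3 ^ L), wt L (pre 3 (c i) ((P + 1) * L)))
      = 3 * ∑ i ∈ Finset.range (3 ^ L),
      ∑ P ∈ Finset.Ico (b ^ j) (b ^ (j + 1)), wt L (pre 3 (c i) ((P + 1) * L)) := by
    rw [← Finset.mul_sum, Finset.sum_comm]
  rw [Finset.sum_add_distrib, e1] at hT1
  simp only [Finset.sum_const, Nat.card_Ico, smul_eq_mul] at hT1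
  have hT2 : 5 * ∑ i ∈ Finset.range (3 ^ L),
      ∑ P ∈ Finset.Ico (b ^ j) (b ^ (j + 1)), wt L (pre 3 (c i) ((P + 1) * L))
      ≤ 3 ^ L * (3 * (L * b ^ (j + 1))) := by
    rw [Finset.mul_sum]
    calc _ ≤ ∑ i ∈ Finset.range (3 ^ L), 3 * (L * b ^ (j + 1)) := by
          refine Finset.sum_le_sum fun i hi => ?_
          exact le_trans (Nat.mul_le_mul_left 5 (hcount i)) (hsp i (Finset.mem_range.1 hi))
      _ = _ := by simp
  set S := ∑ i ∈ Finset.range (3 ^ L),
      ∑ P ∈ Finset.Ico (b ^ j) (b ^ (j + 1)), wt L (pre 3 (c i) ((P + 1) * L)) with hS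
  have hbj : b ^ (j + 1) - b ^ j = (b - 1) * b ^ j := by
    rw [pow_succ, Nat.sub_mul, one_mul, mul_comm]
  rw [hbj] at hT1
  have hq : 0 < 3 ^ L := by positivity
  have hB : 0 < b ^ j := by positivity
  have h23 : 3 ≤ 2 * L := by
    by_contra hcon
    have : 2 * L - 3 = 0 := by omega
    rw [this] at hLb
    simp at hLb
  obtain ⟨m, hm⟩ : ∃ m, 2 * L = 3 + m := ⟨2 * L - 3, by omega⟩
  have hm' : 2 * L - 3 = m := by omega
  rw [hm'] at hLb
  rw [hm] at hT1
  have hT3 : (b - 1) * b ^ j * (m * 3 ^ L) ≤ 3 * S := by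
    nlinarith
  have hT4 : 5 * ((b - 1) * b ^ j * (m * 3 ^ L)) ≤ 3 * (3 ^ L * (3 * (L * b ^ (j + 1)))) := by
    nlinarith
  have hT5 : 3 * (3 ^ L * (3 * (L * b ^ (j + 1)))) = (9 * L * b) * (b ^ j * 3 ^ L) := by
    rw [pow_succ]; ring
  have hT6 : 5 * ((b - 1) * b ^ j * (m * 3 ^ L)) = (5 * (b - 1) * m) * (b ^ j * 3 ^ L) := by ring
  rw [hT5, hT6] at hT4
  have := Nat.le_of_mul_le_mul_right hT4 (by positivity)
  omega

/-- A measurable map `z` from the Cantor space to `ℝ` such that every translate of `E` contains only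
finitely many of the points `z s`. -/
theorem exists_code {L b : ℕ} (hL : 1 ≤ L) (hb : 2 ≤ b)
    (hLb : 9 * L * b < 5 * (b - 1) * (2 * L - 3)) :
    ∃ z : (ℕ → Bool) → ℝ, Measurable z ∧ ∀ x : ℝ, {s | z s - x ∈ E}.Finite := by
  have hq : 0 < 3 ^ L := by positivity
  have : NeZero (3 ^ L) := ⟨hq.ne'⟩
  have : Nonempty (Fin (3 ^ L)) := ⟨⟨0, hq⟩⟩
  let T := Σ k : ℕ, ((Fin k → Bool) → Fin (3 ^ L))
  have : Nonempty T := ⟨⟨0, fun _ => ⟨0, hq⟩⟩⟩
  obtain ⟨e, he⟩ := exists_surjective_nat (T × ℕ)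
  let ev : T → (ℕ → Bool) → Fin (3 ^ L) := fun t s => t.2 (fun i => s i)
  let d : (ℕ → Bool) → ℕ → ℤ := fun s p => ((ev (e (Nat.log b p)).1 s : Fin (3 ^ L)) : ℕ)
  have hdm : ∀ p, Measurable (fun s => d s p) := by
    intro p
    have h1 : Measurable (fun (s : ℕ → Bool) (i : Fin (e (Nat.log b p)).1.1) => s i) := by
      fun_prop
    have h2 : Measurable (fun (v : Fin (e (Nat.log b p)).1.1 → Bool) =>
      ((((e (Nat.log b p)).1.2 v : Fin (3 ^ L)) : ℕ) : ℤ)) := Measurable.of_discrete
    exact h2.comp h1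
  have hd0 : ∀ s p, 0 ≤ d s p := fun s p => by positivity
  have hd1 : ∀ s p, d s p ≤ 3 ^ L - 1 := by
    intro s p
    have := (ev (e (Nat.log b p)).1 s).isLt
    have h2 : (((ev (e (Nat.log b p)).1 s : Fin (3 ^ L)) : ℕ) : ℤ) < 3 ^ L := by
      exact_mod_cast this
    show (((ev (e (Nat.log b p)).1 s : Fin (3 ^ L)) : ℕ) : ℤ) ≤ 3 ^ L - 1
    omega
  refine ⟨fun s => 2 * ∑' p, (d s p : ℝ) / ((3 : ℝ) ^ L) ^ (p + 1), ?_, ?_⟩
  · refine Measurable.const_mul (Measurable.tsum fun p => ?_) 2
    exact (measurable_from_top.comp (hdm p)).div_const _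
  · intro x
    by_contra hinf
    obtain ⟨t, ht, htc⟩ := Set.Infinite.exists_subset_card_eq hinf (3 ^ L)
    let eq := t.equivFinOfCardEq htc
    let σ : Fin (3 ^ L) → (ℕ → Bool) := fun i => (eq.symm i : ℕ → Bool)
    have hσi : Function.Injective σ := fun i j h => eq.symm.injective (Subtype.ext h)
    have hσE : ∀ i, 2 * (∑' p, (d (σ i) p : ℝ) / ((3 : ℝ) ^ L) ^ (p + 1)) - x ∈ E := fun i =>
      ht (eq.symm i).2
    choose cc hcc1 hcc2 hcc3 using hσE
    -- separate the sequences by a finite initial segment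
    have hk : ∀ᶠ k : ℕ in atTop, ∀ i j : Fin (3 ^ L), i ≠ j →
        (fun m : Fin k => σ i m) ≠ (fun m : Fin k => σ j m) := by
      refine eventually_all.2 fun i => eventually_all.2 fun j => ?_
      by_cases hij : i = j
      · exact Eventually.of_forall fun k h => absurd hij h
      · have : σ i ≠ σ j := fun h => hij (hσi h)
        obtain ⟨n, hn⟩ := Function.ne_iff.1 this
        filter_upwards [eventually_gt_atTop n] with k hk _ h
        exact hn (congrFun h ⟨n, hk⟩)
    obtain ⟨k, hk⟩ := hk.exists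
    have hinj : Function.Injective (fun (i : Fin (3 ^ L)) (m : Fin k) => σ i m) := by
      intro i j hij
      by_contra hne
      exact hk i j hne hij
    obtain ⟨f, hf⟩ := hinj.hasLeftInverse
    obtain ⟨N0, hN0⟩ := eventually_atTop.1 (eventually_all.2 hcc3)
    -- find a long block coded by `f`
    have hinfj : {j | (e j).1 = (⟨k, f⟩ : T)}.Infinite := by
      have hch : ∀ r : ℕ, ∃ j, e j = ((⟨k, f⟩ : T), r) := fun r => he _
      choose J hJ using hch
      refine Set.infinite_of_injective_forall_mem (f := J) (fun r r' h => ?_) (fun r => ?_)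
      · have h1 := hJ r
        rw [h, hJ r'] at h1
        exact (congrArg Prod.snd h1).symm
      · show (e (J r)).1 = _
        rw [hJ r]
    obtain ⟨j, hj1, hj2⟩ := hinfj.exists_gt N0
    have hmod : ∀ i : ℕ, i % 3 ^ L < 3 ^ L := fun i => Nat.mod_lt _ hq
    refine block_count (L := L) (b := b) (j := j) hL (by omega) hLb
      (fun i => cc ⟨i % 3 ^ L, hmod i⟩) (fun i => hcc1 _) (fun i => d (σ ⟨i % 3 ^ L, hmod i⟩))
      (fun i => hd0 _) (fun i => hd1 _) x (fun i _ => hcc2 _) ?_ ?_
    · intro i hi P hP1 hP2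
      have hlog : Nat.log b P = j := by
        rw [Nat.log_eq_iff (Or.inr ⟨by omega, ?_⟩)]
        · exact ⟨hP1, hP2⟩
        · intro h0
          rw [h0] at hP1
          have : 0 < b ^ j := by positivity
          omega
      show (((ev (e (Nat.log b P)).1 (σ ⟨i % 3 ^ L, hmod i⟩) : Fin (3 ^ L)) : ℕ) : ℤ) = i
      rw [hlog]
      have hj1' : (e j).1 = (⟨k, f⟩ : T) := hj1
      rw [hj1']
      have : ev ⟨k, f⟩ (σ ⟨i % 3 ^ L, hmod i⟩) = ⟨i % 3 ^ L, hmod i⟩ := hf _
      rw [this]
      simp [Nat.mod_eq_of_lt hi]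
    · intro i hi
      refine hN0 _ ?_ _
      have h1 : j + 1 < b ^ (j + 1) := Nat.lt_pow_self (by omega)
      have h2 : 1 * b ^ (j + 1) ≤ L * b ^ (j + 1) := Nat.mul_le_mul_right _ hL
      omega

/-- The measure `½(δ_0 + δ_1)` on the two-point space `Bool = {false, true} = {0, 1}`. -/
noncomputable def coin : Measure Bool :=
  (2⁻¹ : ℝ≥0∞) • (Measure.dirac false + Measure.dirac true)

instance : IsProbabilityMeasure coin := ⟨by
  simp [coin]
  exact ENNReal.inv_two_add_inv_two⟩

/-- the product measure on `{0,1}^ℕ` -/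
noncomputable def bern : Measure (ℕ → Bool) := Measure.infinitePi (fun _ : ℕ => coin)

instance : IsProbabilityMeasure bern := by unfold bern; infer_instance

lemma coin_singleton (v : Bool) : coin {v} = 2⁻¹ := by
  cases v <;> simp [coin]

lemma bern_singleton (s : ℕ → Bool) : bern {s} = 0 := by
  have hle : ∀ n : ℕ, bern {s} ≤ (2⁻¹ : ℝ≥0∞) ^ n := by
    intro n
    have h1 : bern (Set.pi (Finset.range n) (fun i => {s i})) = ∏ i ∈ Finset.range n, coin {s i} := by
      unfold bern
      rw [Measure.infinitePi_pi]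
      intro i _; exact MeasurableSet.singleton _
    have h2 : ({s} : Set (ℕ → Bool)) ⊆ Set.pi (Finset.range n) (fun i => {s i}) := by
      intro s' hs'
      rw [Set.mem_singleton_iff] at hs'
      subst hs'
      intro i _; rfl
    calc bern {s} ≤ _ := measure_mono h2
      _ = (2⁻¹ : ℝ≥0∞) ^ n := by rw [h1]; simp [coin_singleton]
  have hlim : Tendsto (fun n : ℕ => (2⁻¹ : ℝ≥0∞) ^ n) atTop (𝓝 0) :=
    ENNReal.tendsto_pow_atTop_nhds_zero_of_lt_one (by
      rw [ENNReal.inv_lt_one]; norm_num)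
  exact le_antisymm (ge_of_tendsto' hlim hle) bot_le

instance : NullSingletonClass bern := ⟨bern_singleton⟩

/-- Fewer than continuum many translates of `E` do not cover the complement of a null set. -/
theorem exists_avoid {N : Set ℝ} (hN : MeasurableSet N) (hN0 : volume N = 0) {F : Set ℝ}
    (hF : Cardinal.mk F < Cardinal.continuum) : ∃ x : ℝ, x ∉ N ∧ ∀ f ∈ F, x - f ∉ E := by
  obtain ⟨z, hz, hfin⟩ := exists_code (L := 60) (b := 60) (by norm_num) (by norm_num) (by norm_num)
  let A : Set (ℝ × (ℕ → Bool)) := {p | z p.2 + p.1 ∈ N}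
  have hA : MeasurableSet A := by
    refine hN.preimage ?_
    exact (hz.comp measurable_snd).add measurable_fst
  have hA0 : (volume.prod bern) A = 0 := by
    rw [Measure.prod_apply_symm hA]
    have : ∀ s : ℕ → Bool, volume ((fun y : ℝ => (y, s)) ⁻¹' A) = 0 := by
      intro s
      have e : (fun y : ℝ => (y, s)) ⁻¹' A = (fun y => z s + y) ⁻¹' N := rfl
      rw [e, measure_preimage_add, hN0]
    simp [this]
  have hae := (Measure.measure_prod_null hA).1 hA0
  obtain ⟨y, hy⟩ := hae.exists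
  have hy0 : bern {s | z s + y ∈ N} = 0 := hy
  set S : Set (ℕ → Bool) := {s | z s + y ∉ N} with hS
  have hSm : MeasurableSet S := by
    have : MeasurableSet {s | z s + y ∈ N} := hN.preimage (hz.add_const y)
    exact this.compl
  have hSc : ¬ Countable S := by
    intro hcount
    have h1 : bern S = 0 := Set.Countable.measure_zero (Set.countable_coe_iff.1 hcount) bern
    have h2 : bern (Set.univ) ≤ bern S + bern {s | z s + y ∈ N} := by
      refine le_trans (measure_mono ?_) (measure_union_le _ _)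
      intro s _
      by_cases h : z s + y ∈ N
      · exact Or.inr h
      · exact Or.inl h
    rw [h1, hy0, measure_univ] at h2
    simp at h2
  have : StandardBorelSpace S := hSm.standardBorel
  have hScard : Cardinal.mk S = Cardinal.continuum := by
    have hR : ¬ Countable ℝ := by
      intro h
      exact Cardinal.not_countable_real (Set.countable_univ_iff.2 h)
    have e := (PolishSpace.measurableEquivOfNotCountable (α := S) (β := ℝ) hSc hR).toEquiv
    rw [Cardinal.mk_congr e, Cardinal.mk_real]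
  -- the bad set
  have hbad : Cardinal.mk (⋃ f ∈ F, {s | z s + y - f ∈ E} : Set (ℕ → Bool)) < Cardinal.continuum := by
    refine lt_of_le_of_lt (Cardinal.mk_biUnion_le _ _) ?_
    refine Cardinal.mul_lt_of_lt Cardinal.aleph0_le_continuum hF ?_
    refine lt_of_le_of_lt (ciSup_le' fun f => ?_) Cardinal.aleph0_lt_continuum
    have : {s | z s + y - f ∈ E} = {s | z s - (f - y) ∈ E} := by
      ext s; show z s + y - f ∈ E ↔ z s - (f - y) ∈ E; rw [show z s + y - f = z s - (f - y) by ring]
    rw [this]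
    exact (Cardinal.lt_aleph0_iff_set_finite.2 (hfin _)).le
  have hne : ¬ (S ⊆ ⋃ f ∈ F, {s | z s + y - f ∈ E}) := by
    intro hsub
    have := Cardinal.mk_le_mk_of_subset hsub
    rw [hScard] at this
    exact absurd this (not_le.2 hbad)
  obtain ⟨s, hs1, hs2⟩ := Set.not_subset.1 hne
  refine ⟨z s + y, hs1, fun f hf h => hs2 ?_⟩
  exact Set.mem_biUnion hf h

/-- The transfinite construction: a non-null set all of whose nonzero differences avoid `E`. -/
theorem exists_set : ∃ X : Set ℝ, volume X ≠ 0 ∧ ∀ x ∈ X, ∀ y ∈ X, x ≠ y → x - y ∉ E := by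
  let T := {N : Set ℝ // MeasurableSet N ∧ volume N = 0}
  have hT : Cardinal.mk T ≤ Cardinal.continuum := by
    have h1 : Cardinal.mk {t : Set ℝ | MeasurableSet t} ≤ Cardinal.continuum := by
      have h := MeasurableSpace.cardinal_measurableSet_le_continuum
        (s := MeasurableSpace.countableGeneratingSet ℝ)
        (le_trans (Set.Countable.le_aleph0 MeasurableSpace.countable_countableGeneratingSet)
          Cardinal.aleph0_le_continuum)
      rwa [MeasurableSpace.generateFrom_countableGeneratingSet] at h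
    refine le_trans ?_ h1
    exact Cardinal.mk_le_of_injective (f := fun N : T => (⟨N.1, N.2.1⟩ : {t : Set ℝ | MeasurableSet t}))
      (fun a b h => Subtype.ext (congrArg (fun u : {t : Set ℝ | MeasurableSet t} => u.1) h))
  obtain ⟨r, wo, hr⟩ := Cardinal.exists_ord_eq T
  have wf : WellFounded r := wo.wf
  classical
  let G : (N : T) → ((M : T) → r M N → ℝ) → ℝ := fun N rec =>
    if h : ∃ x : ℝ, x ∉ N.1 ∧ ∀ (M : T) (hM : r M N), x - rec M hM ∉ E then h.choose else 0
  let g : T → ℝ := wf.fix G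
  have hg : ∀ N : T, g N ∉ N.1 ∧ ∀ M : T, r M N → g N - g M ∉ E := by
    intro N
    have hex : ∃ x : ℝ, x ∉ N.1 ∧ ∀ (M : T) (hM : r M N), x - g M ∉ E := by
      have hcard : Cardinal.mk (Set.range (fun M : {M : T // r M N} => g M.1))
          < Cardinal.continuum := by
        refine lt_of_le_of_lt Cardinal.mk_range_le ?_
        rw [← Ordinal.card_typein]
        exact lt_of_lt_of_le (Cardinal.card_typein_lt N hr) hT
      obtain ⟨x, hx1, hx2⟩ := exists_avoid N.2.1 N.2.2 hcard
      exact ⟨x, hx1, fun M hM => hx2 _ ⟨⟨M, hM⟩, rfl⟩⟩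
    have hgN : g N = hex.choose := by
      show wf.fix G N = _
      rw [wf.fix_eq]
      exact dif_pos hex
    rw [hgN]
    exact hex.choose_spec
  refine ⟨Set.range g, ?_, ?_⟩
  · intro h0
    obtain ⟨N, hN1, hN2, hN3⟩ := exists_measurable_superset_of_null h0
    have := (hg ⟨N, hN2, hN3⟩).1
    exact this (hN1 ⟨_, rfl⟩)
  · rintro x ⟨M, rfl⟩ y ⟨N, rfl⟩ hxy
    rcases trichotomous_of r M N with h | h | h
    · intro hE
      have := (hg N).2 M h
      apply this
      have h2 := E_neg hE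
      simpa using h2
    · exact absurd (congrArg g h) hxy
    · exact (hg M).2 N h

/-- **The Cantor measure** on `ℝ`: the image of the product measure `⨂ ½(δ_0 + δ_1)` on `{0,1}^ℕ`
(here `{false, true}^ℕ`, coordinates indexed by `n = 0, 1, 2, ...`) under the map
`x ↦ ∑ 2 x_n 3^{-(n+1)}`. -/
noncomputable def cantorMeasure : Measure ℝ :=
  (Measure.infinitePi fun _ : ℕ =>
      (2⁻¹ : ℝ≥0∞) • (Measure.dirac false + Measure.dirac true)).map
    (fun x : ℕ → Bool => ∑' n : ℕ, 2 * (if x n then (1 : ℝ) else 0) * (3 : ℝ)⁻¹ ^ (n + 1))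

/-- The coding map of the Cantor set. -/
noncomputable def cmap (x : ℕ → Bool) : ℝ :=
  ∑' n : ℕ, 2 * (if x n then (1 : ℝ) else 0) * (3 : ℝ)⁻¹ ^ (n + 1)

lemma cantorMeasure_eq : cantorMeasure = bern.map cmap := rfl

lemma cmap_eq (x : ℕ → Bool) :
    cmap x = 2 * ∑' n, (((if x n then 1 else 0 : ℤ)) : ℝ) / (3 : ℝ) ^ (n + 1) := by
  unfold cmap
  rw [← tsum_mul_left]
  refine tsum_congr fun n => ?_
  rw [inv_pow, ← div_eq_mul_inv]
  split_ifs <;> simp [div_eq_mul_inv]

lemma cmap_sub (x y : ℕ → Bool) : cmap x - cmap y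
    = 2 * ∑' n, (((if x n then 1 else 0 : ℤ) - (if y n then 1 else 0 : ℤ) : ℤ) : ℝ)
      / (3 : ℝ) ^ (n + 1) := by
  have hs : ∀ x : ℕ → Bool,
      Summable (fun n => (((if x n then 1 else 0 : ℤ)) : ℝ) / (3 : ℝ) ^ (n + 1)) := fun x =>
    summable_digits (B := 3) (by norm_num) (a := fun n => if x n then 1 else 0) (M := 1)
      (fun n => by split_ifs <;> simp)
  rw [cmap_eq, cmap_eq, ← mul_sub, ← (hs x).tsum_sub (hs y)]
  congr 1
  refine tsum_congr fun n => ?_
  push_cast
  ring

lemma cmap_eq_ofDigits (x : ℕ → Bool) :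
    cmap x = Real.ofDigits (fun n => if x n then (2 : Fin 3) else 0) := by
  unfold cmap Real.ofDigits Real.ofDigitsTerm
  refine tsum_congr fun n => ?_
  rw [inv_pow]
  show 2 * (if x n then (1 : ℝ) else 0) * ((3 : ℝ) ^ (n + 1))⁻¹
    = (((if x n then (2 : Fin 3) else 0 : Fin 3) : ℕ) : ℝ) * (((3 : ℕ) : ℝ) ^ (n + 1))⁻¹
  generalize x n = v
  cases v <;> simp

lemma cmap_injective : Function.Injective cmap := by
  intro x y h
  rw [cmap_eq_ofDigits, cmap_eq_ofDigits] at h
  have := ofDigits_zero_two_sequence_unique (fun n => by split_ifs <;> decide)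
    (fun n => by split_ifs <;> decide) h
  funext n
  have hn := congrFun this n
  by_cases hx : x n <;> by_cases hy : y n <;> simp_all

lemma cmap_measurable : Measurable cmap := by
  unfold cmap
  refine Measurable.tsum fun n => ?_
  have h1 : Measurable (fun v : Bool => 2 * (if v then (1 : ℝ) else 0) * (3 : ℝ)⁻¹ ^ (n + 1)) :=
    Measurable.of_discrete
  exact h1.comp (measurable_pi_apply n)

lemma cantorMeasure_apply (A : Set ℝ) : cantorMeasure A = bern (cmap ⁻¹' A) := by
  rw [cantorMeasure_eq]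
  exact (cmap_measurable.measurableEmbedding cmap_injective).map_apply _ _

/-- Sanity check: the Cantor measure is a probability measure. -/
lemma cantorMeasure_univ : cantorMeasure Set.univ = 1 := by
  rw [cantorMeasure_apply, Set.preimage_univ, measure_univ]

/-- Sanity check: the Cantor measure is carried by the middle-thirds Cantor set. -/
lemma cantorMeasure_compl_cantorSet : cantorMeasure cantorSetᶜ = 0 := by
  rw [cantorMeasure_apply]
  have : cmap ⁻¹' cantorSetᶜ = ∅ := by
    ext x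
    simp only [Set.mem_preimage, Set.mem_compl_iff, Set.mem_empty_iff_false, iff_false, not_not]
    rw [cmap_eq_ofDigits]
    exact ofDigits_zero_two_sequence_mem_cantorSet (fun n => by
      cases x n <;> decide)
  rw [this, measure_empty]

/-- law of large numbers -/
lemma ae_diff_mem (y : ℕ → Bool) : ∀ᵐ x ∂bern, cmap x - cmap y ∈ E := by
  let φ : ℕ → Bool → ℝ := fun n v => if v = y n then 0 else 1
  let X : ℕ → (ℕ → Bool) → ℝ := fun n x => φ n (x n)
  have hφ : ∀ n, Measurable (φ n) := fun n => Measurable.of_discrete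
  have hX : ∀ n, Measurable (X n) := fun n => (hφ n).comp (measurable_pi_apply n)
  have hlaw : ∀ n, bern.map (X n)
      = (2⁻¹ : ℝ≥0∞) • (Measure.dirac (0 : ℝ) + Measure.dirac (1 : ℝ)) := by
    intro n
    have h1 : bern.map (X n) = (bern.map (fun x => x n)).map (φ n) :=
      (Measure.map_map (hφ n) (measurable_pi_apply n)).symm
    have h2 : bern.map (fun x => x n) = coin := by
      unfold bern
      exact Measure.infinitePi_map_eval (fun _ : ℕ => coin) n
    rw [h1, h2]
    unfold coin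
    rw [Measure.map_smul, Measure.map_add _ _ (hφ n), Measure.map_dirac' (hφ n),
      Measure.map_dirac' (hφ n)]
    by_cases hy : y n = true
    · have e1 : φ n false = 1 := by simp [φ, hy]
      have e2 : φ n true = 0 := by simp [φ, hy]
      rw [e1, e2, add_comm]
    · have hy' : y n = false := by simpa using hy
      have e1 : φ n false = 0 := by simp [φ, hy']
      have e2 : φ n true = 1 := by simp [φ, hy']
      rw [e1, e2]
  have hint : Integrable (X 0) bern := by
    refine Integrable.of_bound (hX 0).aestronglyMeasurable 1 (Eventually.of_forall fun x => ?_)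
    simp only [X, φ]; split_ifs <;> simp
  have hmean : ∫ x, X 0 x ∂bern = 1 / 2 := by
    have h1 : ∫ x, X 0 x ∂bern = ∫ v, v ∂(bern.map (X 0)) :=
      (integral_map (hX 0).aemeasurable aestronglyMeasurable_id).symm
    rw [h1, hlaw 0, integral_smul_measure, integral_add_measure, integral_dirac, integral_dirac]
    · simp
    · exact integrable_dirac (by simp)
    · exact integrable_dirac (by simp)
  have hind : Pairwise (Function.onFun (fun f g => ProbabilityTheory.IndepFun f g bern) X) := by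
    intro i j hij
    have := ProbabilityTheory.iIndepFun_infinitePi (P := fun _ : ℕ => coin) (X := φ) hφ
    exact this.indepFun hij
  have hid : ∀ i, ProbabilityTheory.IdentDistrib (X i) (X 0) bern bern := fun i =>
    ⟨(hX i).aemeasurable, (hX 0).aemeasurable, by rw [hlaw, hlaw]⟩
  have hslln := ProbabilityTheory.strong_law_ae_real X hint hind hid
  rw [hmean] at hslln
  filter_upwards [hslln] with x hx
  refine ⟨fun n => (if x n then 1 else 0 : ℤ) - (if y n then 1 else 0 : ℤ), ?_, cmap_sub x y, ?_⟩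
  · intro n
    show |(if x n then 1 else 0 : ℤ) - (if y n then 1 else 0 : ℤ)| ≤ 1
    cases x n <;> cases y n <;> simp
  · have hev := (hx.eventually (gt_mem_nhds (show (1 / 2 : ℝ) < 3 / 5 by norm_num)))
    filter_upwards [hev, eventually_gt_atTop 0] with N hN hN0
    have hNr : (0 : ℝ) < N := by exact_mod_cast hN0
    rw [div_lt_iff₀ hNr] at hN
    have hcast : ((∑ n ∈ Finset.range N,
        if ((if x n then 1 else 0 : ℤ) - (if y n then 1 else 0 : ℤ)) = 0 then 0 else 1 : ℕ) : ℝ)
        = ∑ i ∈ Finset.range N, X i x := by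
      push_cast
      refine Finset.sum_congr rfl fun n _ => ?_
      simp only [X, φ]
      cases x n <;> cases y n <;> simp
    rw [← hcast] at hN
    have h5 : ((5 * (∑ n ∈ Finset.range N,
        if ((if x n then 1 else 0 : ℤ) - (if y n then 1 else 0 : ℤ)) = 0 then 0 else 1) : ℕ) : ℝ)
        ≤ ((3 * N : ℕ) : ℝ) := by
      push_cast at hN ⊢
      linarith
    exact_mod_cast h5

/-- **Main theorem.** There is a set `X` of reals of positive outer Lebesgue measure such that
`μ_Cantor (X + t) = 0` (outer measure) for every real `t`. -/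
theorem main : ∃ X : Set ℝ, 0 < volume X ∧
    ∀ t : ℝ, cantorMeasure ((fun x => x + t) '' X) = 0 := by
  obtain ⟨X, hX, hXE⟩ := exists_set
  refine ⟨X, pos_iff_ne_zero.2 hX, fun t => ?_⟩
  rw [cantorMeasure_apply]
  by_cases hemp : (cmap ⁻¹' ((fun x => x + t) '' X)).Nonempty
  · obtain ⟨y, a, ha, hay⟩ := hemp
    have hsub : cmap ⁻¹' ((fun x => x + t) '' X) ⊆ {y} ∪ {x | ¬ (cmap x - cmap y ∈ E)} := by
      rintro x ⟨b, hb, hbx⟩
      by_cases hxy : x = y
      · exact Or.inl hxy
      · right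
        have hbx' : b + t = cmap x := hbx
        have hay' : a + t = cmap y := hay
        have hne : b ≠ a := by
          intro h
          apply hxy
          apply cmap_injective
          rw [← hbx', ← hay', h]
        have := hXE b hb a ha hne
        show ¬ (cmap x - cmap y ∈ E)
        rw [← hbx', ← hay']
        simpa using this
    refine measure_mono_null hsub ?_
    rw [measure_union_null_iff]
    exact ⟨bern_singleton y, ae_iff.1 (ae_diff_mem y)⟩
  · rw [Set.not_nonempty_iff_eq_empty] at hemp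
    rw [hemp]; simp

end Pool.Agent.Hhelper29.CantorNull
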